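import Pool.Agent.Helper24.EG.Goals

/-!
# Project EG, packet DB: bound for the disconnected part
-/

set_option autoImplicit false

namespace Pool.Agent.Helper59.EG

open Finset Pool.Agent.Helper24.EG

theorem Wn_zero (z : ℂ) : Wn 0 z = 1 := by
  unfold Wn
  rw [Fintype.sum_eq_single (⊥ : SimpleGraph (Fin 0)) (fun G hG => (hG (Subsingleton.elim _ _)).elim)]
  unfold wG
  rw [if_pos (fun v => v.elim0)]
  simp

/-- the recursion, for the difference -/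
theorem diff_eq (hR : G_REC) (m : ℕ) (z : ℂ) : Wn (m + 1) z - Cn (m + 1) z =
    ∑ j ∈ range m, (m.choose j : ℂ) * Cn (j + 1) z * Wn (m - j) z := by
  rw [hR m z, sum_range_succ, Nat.choose_self, Nat.sub_self, Wn_zero]
  push_cast
  ring

theorem choose_split (i k : ℕ) : (i + k).choose 2 = i.choose 2 + k.choose 2 + i * k := by
  induction k with
  | zero => simp
  | succ k ih =>
    rw [← Nat.add_assoc, Nat.choose_succ_succ' (i + k) 1, Nat.choose_succ_succ' k 1, ih,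
      Nat.choose_one_right, Nat.choose_one_right]
    ring

theorem exp_pow (a : ℝ) (ha : 0 < a) (k : ℕ) : Real.exp (-(Real.log a * k)) = (a ^ k)⁻¹ := by
  rw [Real.exp_neg, mul_comm, Real.exp_nat_mul, Real.exp_log ha]

theorem key (hR : G_REC) (K1 : ℝ) (z : ℂ) (ha : 0 < ‖1 + z‖)
    (hw : ∀ n, 2 ^ n * ‖Wn n z‖ ≤ K1 * ‖1 + z‖ ^ (n.choose 2)) (n : ℕ) (hn : 1 ≤ n) :
    2 ^ n * ‖Wn n z - Cn n z‖ / ‖1 + z‖ ^ (n.choose 2) ≤
      K1 * ∑ j ∈ Ico 1 n, ((n - 1).choose (j - 1) : ℝ) * (2 ^ j * ‖Cn j z‖ / ‖1 + z‖ ^ (j.choose 2)) *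
        Real.exp (-(Real.log ‖1 + z‖ * (j * (n - j : ℕ)))) := by
  obtain ⟨m, rfl⟩ : ∃ m, n = m + 1 := ⟨n - 1, by omega⟩
  rw [diff_eq hR m z, Finset.sum_Ico_eq_sum_range, Nat.add_sub_cancel]
  set a := ‖1 + z‖ with hadef
  rw [Finset.mul_sum]
  have h1 : 2 ^ (m + 1) * ‖∑ j ∈ range m, (m.choose j : ℂ) * Cn (j + 1) z * Wn (m - j) z‖ /
      a ^ ((m + 1).choose 2) ≤ ∑ j ∈ range m, 2 ^ (m + 1) * ‖(m.choose j : ℂ) * Cn (j + 1) z *
        Wn (m - j) z‖ / a ^ ((m + 1).choose 2) := by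
    rw [← Finset.sum_div, ← Finset.mul_sum]
    apply div_le_div_of_nonneg_right _ (by positivity)
    apply mul_le_mul_of_nonneg_left (norm_sum_le _ _) (by positivity)
  refine h1.trans (Finset.sum_le_sum fun i hi => ?_)
  have hi' : i < m := Finset.mem_range.1 hi
  have e1 : 1 + i - 1 = i := by omega
  have e2 : m + 1 - (1 + i) = m - i := by omega
  have e3 : 1 + i = i + 1 := by omega
  rw [e2, e3, Nat.add_sub_cancel]
  have hc : (m + 1).choose 2 = (i + 1).choose 2 + (m - i).choose 2 + (i + 1) * (m - i) := by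
    rw [← choose_split]
    congr 1
    omega
  have hex : Real.exp (-(Real.log a * (((i + 1 : ℕ) : ℝ) * ((m - i : ℕ) : ℝ)))) =
      (a ^ ((i + 1) * (m - i)))⁻¹ := by
    rw [← exp_pow a ha]
    push_cast
    rfl
  rw [hex, hc, norm_mul, norm_mul, Complex.norm_natCast]
  have h2 : (2 : ℝ) ^ (m + 1) = 2 ^ (i + 1) * 2 ^ (m - i) := by
    rw [← pow_add]
    congr 1
    omega
  have h3 : a ^ ((i + 1).choose 2 + (m - i).choose 2 + (i + 1) * (m - i)) =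
      a ^ ((i + 1).choose 2) * a ^ ((m - i).choose 2) * a ^ ((i + 1) * (m - i)) := by
    rw [pow_add, pow_add]
  rw [h2, h3]
  have hW := hw (m - i)
  have hA : 0 < a ^ ((i + 1).choose 2) := by positivity
  have hB : 0 < a ^ ((m - i).choose 2) := by positivity
  have hC : 0 < a ^ ((i + 1) * (m - i)) := by positivity
  rw [div_le_iff₀ (by positivity)]
  have e4 : K1 * ((m.choose i : ℝ) * (2 ^ (i + 1) * ‖Cn (i + 1) z‖ / a ^ ((i + 1).choose 2)) *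
      (a ^ ((i + 1) * (m - i)))⁻¹) *
      (a ^ ((i + 1).choose 2) * a ^ ((m - i).choose 2) * a ^ ((i + 1) * (m - i))) =
      ((m.choose i : ℝ) * 2 ^ (i + 1) * ‖Cn (i + 1) z‖) * (K1 * a ^ ((m - i).choose 2)) := by
    field_simp
  rw [e4]
  calc 2 ^ (i + 1) * 2 ^ (m - i) * ((m.choose i : ℝ) * ‖Cn (i + 1) z‖ * ‖Wn (m - i) z‖)
      = ((m.choose i : ℝ) * 2 ^ (i + 1) * ‖Cn (i + 1) z‖) * (2 ^ (m - i) * ‖Wn (m - i) z‖) := by
        ring
    _ ≤ _ := mul_le_mul_of_nonneg_left hW (by positivity)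

theorem log_lower (z : ℂ) (hz : ‖z‖ ≤ 1 / 2) (hre : 0 ≤ z.re) :
    2 / 5 * ‖z‖ ^ 2 ≤ Real.log ‖1 + z‖ := by
  have h0 : ‖1 + z‖ ^ 2 = 1 + 2 * z.re + ‖z‖ ^ 2 := by
    rw [← Complex.normSq_eq_norm_sq, ← Complex.normSq_eq_norm_sq, Complex.normSq_apply,
      Complex.normSq_apply]
    simp
    ring
  have h1 : 1 + ‖z‖ ^ 2 ≤ ‖1 + z‖ ^ 2 := by linarith
  have hx0 : 0 ≤ ‖z‖ ^ 2 := by positivity
  have hx : ‖z‖ ^ 2 ≤ 1 / 4 := by nlinarith [norm_nonneg z]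
  have h2 : Real.log (1 + ‖z‖ ^ 2) ≤ Real.log (‖1 + z‖ ^ 2) := Real.log_le_log (by positivity) h1
  have h3 : Real.log (‖1 + z‖ ^ 2) = 2 * Real.log ‖1 + z‖ := by
    rw [Real.log_pow]
    norm_num
  have h4 : 1 - (1 + ‖z‖ ^ 2)⁻¹ ≤ Real.log (1 + ‖z‖ ^ 2) :=
    Real.one_sub_inv_le_log_of_pos (by positivity)
  have h5 : 4 / 5 * ‖z‖ ^ 2 ≤ 1 - (1 + ‖z‖ ^ 2)⁻¹ := by
    have h6 : 1 - (1 + ‖z‖ ^ 2)⁻¹ = ‖z‖ ^ 2 / (1 + ‖z‖ ^ 2) := by
      field_simp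
      ring
    rw [h6, le_div_iff₀ (by positivity)]
    nlinarith
  linarith

/-- **DB** (bound for the disconnected part). -/
theorem gDB (hR : G_REC) (h1 : G_N1) (h2 : G_N2) (h3 : G_N3) : G_DB := by
  intro c hc
  obtain ⟨K1, hK1, H1⟩ := h1 c hc
  have hα0 : 0 < Real.log (1 + c) := Real.log_pos (by linarith)
  obtain ⟨K2, hK2, H2⟩ := h2 (Real.log (1 + c)) K1 hα0 hK1
  obtain ⟨K3, hK3, H3⟩ := h3 (Real.log (1 + c)) hα0
  refine ⟨K1 * K2 * K3, ?_, ?_⟩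
  · have : 1 ≤ K1 * K2 := one_le_mul_of_one_le_of_one_le hK1 hK2
    exact one_le_mul_of_one_le_of_one_le this hK3
  intro n z hn hz hcz
  have ha1 : 1 + c ≤ ‖1 + z‖ := by
    have := Complex.re_le_norm (1 + z)
    simp at this
    linarith
  have ha0 : 0 < ‖1 + z‖ := by linarith
  have hα : Real.log (1 + c) ≤ Real.log ‖1 + z‖ := Real.log_le_log (by linarith) ha1
  have hkey := key hR K1 z ha0 (fun n => H1 n z hz hcz)
  have hcc : ∀ n, 1 ≤ n → 2 ^ n * ‖Cn n z‖ / ‖1 + z‖ ^ (n.choose 2) ≤ K2 := by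
    refine H2 (Real.log ‖1 + z‖) hα (fun n => 2 ^ n * ‖Cn n z‖ / ‖1 + z‖ ^ (n.choose 2))
      (fun n => by positivity) (fun n hn => ?_)
    refine le_trans ?_ (add_le_add_right (hkey n hn) K1)
    have hA : 0 < ‖1 + z‖ ^ (n.choose 2) := by positivity
    have hW := H1 n z hz hcz
    have hW' : 2 ^ n * ‖Wn n z‖ / ‖1 + z‖ ^ (n.choose 2) ≤ K1 := by
      rwa [div_le_iff₀ hA]
    have h6 : ‖Cn n z‖ ≤ ‖Wn n z‖ + ‖Wn n z - Cn n z‖ := by
      have : Cn n z = Wn n z - (Wn n z - Cn n z) := by ring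
      calc ‖Cn n z‖ = ‖Wn n z - (Wn n z - Cn n z)‖ := by rw [← this]
        _ ≤ _ := norm_sub_le _ _
    have h7 : 2 ^ n * ‖Cn n z‖ / ‖1 + z‖ ^ (n.choose 2) ≤
        2 ^ n * ‖Wn n z‖ / ‖1 + z‖ ^ (n.choose 2) +
          2 ^ n * ‖Wn n z - Cn n z‖ / ‖1 + z‖ ^ (n.choose 2) := by
      rw [← add_div, ← mul_add]
      apply div_le_div_of_nonneg_right _ hA.le
      exact mul_le_mul_of_nonneg_left h6 (by positivity)
    linarith
  have hA : 0 < ‖1 + z‖ ^ (n.choose 2) := by positivity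
  have hsum : ∑ j ∈ Ico 1 n, ((n - 1).choose (j - 1) : ℝ) *
      (2 ^ j * ‖Cn j z‖ / ‖1 + z‖ ^ (j.choose 2)) *
        Real.exp (-(Real.log ‖1 + z‖ * (j * (n - j : ℕ)))) ≤
      K2 * K3 * n ^ 2 * Real.exp (-(Real.log ‖1 + z‖ * n / 2)) := by
    have h8 : ∀ j ∈ Ico 1 n, ((n - 1).choose (j - 1) : ℝ) *
      (2 ^ j * ‖Cn j z‖ / ‖1 + z‖ ^ (j.choose 2)) *
        Real.exp (-(Real.log ‖1 + z‖ * (j * (n - j : ℕ)))) ≤
        K2 * (K3 * n * Real.exp (-(Real.log ‖1 + z‖ * n / 2))) := by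
      intro j hj
      rw [Finset.mem_Ico] at hj
      have h9 := H3 (Real.log ‖1 + z‖) hα n j hj.1 hj.2
      have h10 := hcc j hj.1
      calc ((n - 1).choose (j - 1) : ℝ) * (2 ^ j * ‖Cn j z‖ / ‖1 + z‖ ^ (j.choose 2)) *
            Real.exp (-(Real.log ‖1 + z‖ * (j * (n - j : ℕ))))
          = (2 ^ j * ‖Cn j z‖ / ‖1 + z‖ ^ (j.choose 2)) * (((n - 1).choose (j - 1) : ℝ) *
            Real.exp (-(Real.log ‖1 + z‖ * (j * (n - j : ℕ))))) := by ring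
        _ ≤ _ := mul_le_mul h10 h9 (by positivity) (by linarith)
    refine (Finset.sum_le_card_nsmul _ _ _ h8).trans ?_
    rw [Nat.card_Ico, nsmul_eq_mul]
    have h11 : ((n - 1 : ℕ) : ℝ) ≤ n := by
      exact_mod_cast Nat.sub_le n 1
    have h12 : 0 ≤ K2 * (K3 * n * Real.exp (-(Real.log ‖1 + z‖ * n / 2))) := by
      have : 0 ≤ K2 := by linarith
      have : 0 ≤ K3 := by linarith
      positivity
    calc ((n - 1 : ℕ) : ℝ) * (K2 * (K3 * n * Real.exp (-(Real.log ‖1 + z‖ * n / 2))))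
        ≤ n * (K2 * (K3 * n * Real.exp (-(Real.log ‖1 + z‖ * n / 2)))) :=
          mul_le_mul_of_nonneg_right h11 h12
      _ = _ := by ring
  have hfin := (hkey n hn).trans (mul_le_mul_of_nonneg_left hsum (by linarith : (0 : ℝ) ≤ K1))
  rw [div_le_iff₀ hA] at hfin
  refine hfin.trans ?_
  have hlog := log_lower z hz (by linarith)
  have hexp : Real.exp (-(Real.log ‖1 + z‖ * n / 2)) ≤ Real.exp (-(‖z‖ ^ 2 * n / 5)) := by
    apply Real.exp_le_exp.2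
    have hn0 : (0 : ℝ) ≤ n := Nat.cast_nonneg n
    nlinarith [mul_le_mul_of_nonneg_right hlog hn0]
  have h13 : 0 ≤ K1 * K2 * K3 * n ^ 2 * ‖1 + z‖ ^ (n.choose 2) := by
    have : 0 ≤ K1 := by linarith
    have : 0 ≤ K2 := by linarith
    have : 0 ≤ K3 := by linarith
    positivity
  calc K1 * (K2 * K3 * n ^ 2 * Real.exp (-(Real.log ‖1 + z‖ * n / 2))) * ‖1 + z‖ ^ (n.choose 2)
      = K1 * K2 * K3 * n ^ 2 * ‖1 + z‖ ^ (n.choose 2) *
          Real.exp (-(Real.log ‖1 + z‖ * n / 2)) := by ring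
    _ ≤ _ := mul_le_mul_of_nonneg_left hexp h13

end Pool.Agent.Helper59.EG
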